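import Pool.Agent.Lib.MP_92e372_an.Cont

namespace Pool.Agent.Lib.MP_92e372_an

open Filter Topology Metric

variable {A B : Type} [CStarAlgebra A] [CStarAlgebra B] [Nontrivial B]

/-- If all small perturbations of a unit are units, its inverse is bounded. -/
theorem norm_inverse_le {x : B} {K ε : ℝ} (hK : 0 < K) (hε : 0 < ε)
    (h : ∀ c : B, K * ‖c‖ < ε → IsUnit (x - c)) : ‖Ring.inverse x‖ ≤ K / ε := by
  have hx : IsUnit x := by simpa using h 0 (by simpa using hε)
  set w := Ring.inverse x with hw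
  by_contra hlt
  rw [not_le] at hlt
  have hw0 : 0 < ‖w‖ := (div_pos hK hε).trans hlt
  obtain ⟨μ, hμ, hμ'⟩ := spectrum.exists_nnnorm_eq_spectralRadius (w * star w)
  rw [(IsSelfAdjoint.mul_star_self w).spectralRadius_eq_nnnorm] at hμ'
  have hμn : ‖μ‖ = ‖w‖ * ‖w‖ := by
    have : ‖μ‖₊ = ‖w * star w‖₊ := by exact_mod_cast hμ'
    rw [← CStarRing.norm_self_mul_star]
    exact congrArg NNReal.toReal this
  have hμ0 : μ ≠ 0 := by
    rw [← norm_pos_iff, hμn]; positivity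
  have h1 := h (μ⁻¹ • star w) (by
    rw [norm_smul, norm_inv, hμn, norm_star]
    rw [div_lt_iff₀ hε] at hlt
    have : K * ((‖w‖ * ‖w‖)⁻¹ * ‖w‖) = K / ‖w‖ := by field_simp
    rw [this, div_lt_iff₀ hw0]
    linarith)
  apply spectrum.mem_iff.1 hμ
  have e : algebraMap ℂ B μ - w * star w = algebraMap ℂ B μ * (w * (x - μ⁻¹ • star w)) := by
    rw [mul_sub, hw, Ring.inverse_mul_cancel _ hx, ← hw, ← Algebra.smul_def, smul_sub,
      mul_smul_comm, smul_smul, mul_inv_cancel₀ hμ0, one_smul, Algebra.algebraMap_eq_smul_one]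
  rw [e]
  exact ((IsUnit.mk0 μ hμ0).map _).mul (hx.ringInverse.mul h1)

section Family

variable {φ : A →ₗ[ℂ] B} {Ψ : ℂ → A →ₗ[ℂ] B} {δ : A → B} {K : ℝ}

theorem im_le (h0 : ∀ y, Ψ 0 y = φ y) (hd : ∀ y, Differentiable ℂ fun z => Ψ z y)
    (hσ : ∀ z y, spectrum ℂ (Ψ z y) ⊆ spectrum ℂ y) {y : A} {b c : B} (hb : IsSelfAdjoint b)
    (hy : φ y = b + c) {z0 μ : ℂ} (hμ : μ ∈ spectrum ℂ (Ψ z0 y)) : μ.im ≤ ‖c‖ := by
  refine le_zero_of_forall_sq (c := ‖b‖) fun R hR => ?_
  have h1 : μ + Complex.I * R ∈ spectrum ℂ (Ψ z0 y + algebraMap ℂ B (Complex.I * R)) := by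
    rw [← spectrum.add_singleton_eq]
    exact Set.add_mem_add hμ rfl
  have h2 := spectral_liouville (g := fun z => Ψ z y + algebraMap ℂ B (Complex.I * R))
    ((hd y).add_const _) (M := ‖y‖ + ‖Complex.I * R‖) (fun z ν hν => by
      rw [← spectrum.add_singleton_eq] at hν
      obtain ⟨ν', hν', _, rfl, rfl⟩ := hν
      exact (norm_add_le _ _).trans
        (add_le_add (norm_le_of_mem_spectrum _ (hσ z y hν')) le_rfl)) h1
  have h3 : μ.im + R ≤ ‖μ + Complex.I * R‖ := by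
    have := Complex.im_le_norm (μ + Complex.I * R)
    simpa using this
  have h4 : ‖Ψ 0 y + algebraMap ℂ B (Complex.I * R)‖ ≤ √(‖b‖ ^ 2 + R ^ 2) + ‖c‖ := by
    rw [h0, hy, add_right_comm]
    exact (norm_add_le _ _).trans
      (add_le_add (Real.le_sqrt_of_sq_le (norm_add_I_sq_le hb R)) le_rfl)
  linarith

theorem zero_product (h0 : ∀ y, Ψ 0 y = φ y) (hd : ∀ y, Differentiable ℂ fun z => Ψ z y)
    (hδ : ∀ y, HasDerivAt (fun z => Ψ z y) (δ y) 0)
    (hσ : ∀ z y, spectrum ℂ (Ψ z y) ⊆ spectrum ℂ y) (hK : 0 < K)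
    (hs : ∀ z : ℂ, ‖z‖ ≤ 1 → ∀ c : B, ∃ y', Ψ z y' = c ∧ ‖φ y'‖ ≤ K * ‖c‖)
    {y : A} (hy : IsSelfAdjoint (φ y)) {u v : B} (hu : u * φ y = 0) (hv : φ y * v = 0) :
    u * δ y * v = 0 := by
  have key : ∀ ε : ℝ, 0 < ε → ‖u * δ y * v‖ ≤ ‖u‖ * K * ‖v‖ * ε := by
    intro ε hε
    let x : ℂ → B := fun z => algebraMap ℂ B (Complex.I * ε) - Ψ z y
    have hunit : ∀ z : ℂ, ‖z‖ ≤ 1 → ∀ c : B, K * ‖c‖ < ε → IsUnit (x z - c) := by
      intro z hz c hc
      obtain ⟨y', h1, h2⟩ := hs z hz c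
      by_contra hnu
      have h3 : Complex.I * ε ∈ spectrum ℂ (Ψ z (y + y')) := by
        rw [spectrum.mem_iff, map_add, h1, ← sub_sub]
        exact hnu
      have h4 := im_le h0 hd hσ hy (map_add φ y y') h3
      simp at h4
      linarith
    have hunit' : ∀ z : ℂ, ‖z‖ ≤ 1 → IsUnit (x z) := fun z hz => by
      simpa using hunit z hz 0 (by simpa using hε)
    have hxd : Differentiable ℂ x := (hd y).const_sub _
    have hF : DiffContOnCl ℂ (fun z => Ring.inverse (x z)) (ball 0 1) := by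
      apply DifferentiableOn.diffContOnCl
      rw [closure_ball _ one_ne_zero]
      exact hxd.differentiableOn.inverse fun z hz => hunit' z (by simpa using hz)
    have hC := Complex.norm_deriv_le_of_forall_mem_sphere_norm_le one_pos hF (C := K / ε)
      (fun z hz => norm_inverse_le hK hε (hunit z (by simp at hz; exact hz.le)))
    obtain ⟨U, hU⟩ := hunit' 0 (by simp)
    have hder : HasDerivAt (fun z => Ring.inverse (x z)) ((↑U⁻¹ : B) * δ y * ↑U⁻¹) 0 := by
      have h1 : HasDerivAt x (-δ y) 0 := (hδ y).const_sub _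
      have h2 := (hU ▸ hasFDerivAt_ringInverse (𝕜 := ℂ) U).comp_hasDerivAt 0 h1
      simpa using! h2
    rw [hder.deriv, div_one] at hC
    have hI : Complex.I * ε ≠ 0 := mul_ne_zero Complex.I_ne_zero (by exact_mod_cast hε.ne')
    have hUx : (U : B) = algebraMap ℂ B (Complex.I * ε) - φ y := by rw [hU]; simp only [x, h0]
    have e1 : u = (Complex.I * ε) • (u * ↑U⁻¹) := by
      have : u * U = (Complex.I * ε) • u := by
        rw [hUx, mul_sub, hu, sub_zero, Algebra.algebraMap_eq_smul_one, mul_smul_comm, mul_one]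
      rw [← smul_mul_assoc, ← this, Units.mul_inv_cancel_right]
    have e2 : v = (Complex.I * ε) • (↑U⁻¹ * v) := by
      have : U * v = (Complex.I * ε) • v := by
        rw [hUx, sub_mul, hv, sub_zero, Algebra.algebraMap_eq_smul_one, smul_mul_assoc, one_mul]
      rw [← mul_smul_comm, ← this, Units.inv_mul_cancel_left]
    have e3 : u * δ y * v = (Complex.I * ε) ^ 2 • (u * ((↑U⁻¹ : B) * δ y * ↑U⁻¹) * v) := by
      conv_lhs => rw [e1, e2]
      simp only [smul_mul_assoc, mul_smul_comm, smul_smul, mul_assoc, sq]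
    rw [e3, norm_smul, norm_pow, norm_mul, Complex.norm_I, one_mul, Complex.norm_real,
      Real.norm_of_nonneg hε.le]
    calc ε ^ 2 * ‖u * ((↑U⁻¹ : B) * δ y * ↑U⁻¹) * v‖ ≤ ε ^ 2 * (‖u‖ * (K / ε) * ‖v‖) := by
          gcongr
          refine (norm_mul_le _ _).trans ?_
          gcongr
          refine (norm_mul_le _ _).trans ?_
          gcongr
      _ = _ := by field_simp
  rw [← norm_le_zero_iff]
  refine le_of_forall_pos_le_add fun ε hε => ?_
  have hp : 0 < ‖u‖ * K * ‖v‖ + 1 := by positivity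
  have := key (ε / (‖u‖ * K * ‖v‖ + 1)) (by positivity)
  refine this.trans ?_
  rw [zero_add, ← mul_div_assoc, div_le_iff₀ hp]
  nlinarith

end Family

end Pool.Agent.Lib.MP_92e372_an
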