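import Pool.Agent.Lib.MP_92e372_an.Jordan
import Pool.Agent.Lib.MP_92e372_an.Family

namespace Pool.Agent.Lib.MP_92e372_an

open Filter Topology Metric NormedSpace

variable {A B : Type} [CStarAlgebra A] [CStarAlgebra B] [Nontrivial B]

/-- Jordan derivations. -/
def IsJordanDer (D : B →L[ℂ] B) : Prop :=
  ∀ x y : B, D (x * y + y * x) = D x * y + x * D y + D y * x + y * D x

theorem isJordanDer_of_zero_product {D : B →L[ℂ] B} (h1 : D 1 = 0)
    (hz : ∀ b u v : B, IsSelfAdjoint b → u * b = 0 → b * v = 0 → u * D b * v = 0) :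
    IsJordanDer D := by
  have hsa : ∀ x y : B, IsSelfAdjoint x → IsSelfAdjoint y →
      D (x * y + y * x) = D x * y + x * D y + D y * x + y * D x := by
    intro x y hx hy
    have e1 := defect_eq_zero h1 hz hx
    have e2 := defect_eq_zero h1 hz hy
    have e3 := defect_eq_zero h1 hz (hx.add hy)
    simp only [defect, mul_add, add_mul, map_add] at e1 e2 e3 ⊢
    linear_combination (norm := abel1) e3 - e1 - e2
  intro x y
  rw [← realPart_add_I_smul_imaginaryPart x, ← realPart_add_I_smul_imaginaryPart y]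
  have a1 := hsa _ _ (realPart x).2 (realPart y).2
  have a2 := hsa _ _ (realPart x).2 (imaginaryPart y).2
  have a3 := hsa _ _ (imaginaryPart x).2 (realPart y).2
  have a4 := hsa _ _ (imaginaryPart x).2 (imaginaryPart y).2
  simp only [mul_add, add_mul, map_add, map_smul, smul_mul_assoc, mul_smul_comm] at a1 a2 a3 a4 ⊢
  linear_combination (norm := module) a1 + Complex.I • a2 + Complex.I • a3
    + (Complex.I * Complex.I) • a4

omit [Nontrivial B] in
theorem IsJordanDer.map_pow {D : B →L[ℂ] B} (hD : IsJordanDer D) {x : B}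
    (hc : Commute x (D x)) : ∀ n : ℕ, D (x ^ (n + 1)) = ((n : ℂ) + 1) • (x ^ n * D x)
  | 0 => by simp
  | n + 1 => by
    have ih := hD.map_pow hc n
    have h1 := hD x (x ^ (n + 1))
    rw [ih, ← pow_succ, ← pow_succ', map_add, ← (hc.pow_left (n + 1)).eq, mul_smul_comm,
      smul_mul_assoc, ← mul_assoc, ← pow_succ', mul_assoc, ← hc.eq, ← mul_assoc, ← pow_succ] at h1
    have h2 : (2 : ℂ) • D (x ^ (n + 1 + 1))
        = (2 : ℂ) • ((((n + 1 : ℕ) : ℂ) + 1) • (x ^ (n + 1) * D x)) := by
      push_cast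
      linear_combination (norm := module) h1
    exact smul_right_injective _ two_ne_zero h2

theorem IsJordanDer.eq_zero_of_commute {D : B →L[ℂ] B} (hD : IsJordanDer D) (h1 : D 1 = 0)
    {b : B} (hb : IsSelfAdjoint b) (hc : Commute b (D b)) : D b = 0 := by
  let _ : NormedAlgebra ℚ B := .restrictScalars ℚ ℂ B
  have key : ∀ t : ℝ, |t| * ‖D b‖ ≤ ‖D‖ := by
    intro t
    set x : B := (Complex.I * t) • b with hx
    have hcx : Commute x (D x) := by
      rw [hx, map_smul]
      exact (hc.smul_left _).smul_right _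
    have hs := exp_series_hasSum_exp' (𝕂 := ℂ) x
    have h2 := D.hasSum hs
    rw [← hasSum_nat_add_iff' 1] at h2
    have h3 := hs.mul_right (D x)
    have e : (fun n : ℕ => D (((n + 1).factorial⁻¹ : ℂ) • x ^ (n + 1)))
        = fun n : ℕ => ((n.factorial⁻¹ : ℂ) • x ^ n) * D x := by
      funext n
      rw [map_smul, hD.map_pow hcx, smul_smul, smul_mul_assoc, Nat.factorial_succ]
      congr 1
      have : (n : ℂ) + 1 ≠ 0 := by exact_mod_cast Nat.succ_ne_zero n
      have : (n.factorial : ℂ) ≠ 0 := by exact_mod_cast n.factorial_ne_zero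
      push_cast
      field_simp
    rw [e] at h2
    have h4 := h2.unique h3
    simp only [Finset.range_one, Finset.sum_singleton, pow_zero, map_smul, h1, smul_zero,
      sub_zero] at h4
    have hu : exp x ∈ unitary B := by
      apply exp_mem_unitary_of_mem_skewAdjoint
      rw [skewAdjoint.mem_iff, hx, star_smul, hb.star_eq, ← neg_smul]
      congr 1
      simp
    have h5 : ‖D (exp x)‖ ≤ ‖D‖ := by
      have := D.le_opNorm (exp x)
      rwa [CStarRing.norm_of_mem_unitary hu, mul_one] at this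
    rw [h4, CStarRing.norm_mem_unitary_mul _ hu, hx, map_smul, norm_smul] at h5
    simpa using h5
  by_contra hne
  have hp : 0 < ‖D b‖ := norm_pos_iff.2 hne
  have := key (‖D‖ / ‖D b‖ + 1)
  rw [abs_of_nonneg (by positivity), add_mul, div_mul_cancel₀ _ hp.ne'] at this
  linarith

omit [Nontrivial B] in
/-- A map `δ` with the zero product property factors through `φ`. -/
theorem exists_factor (φ δ : A →L[ℂ] B) (hs : Function.Surjective φ)
    (hk : ∀ y, φ y = 0 → δ y = 0) : ∃ D : B →L[ℂ] B, ∀ y, D (φ y) = δ y := by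
  obtain ⟨C, hC, hC'⟩ := φ.exists_preimage_norm_le hs
  have hw : ∀ y y', φ y = φ y' → δ y = δ y' := fun y y' h => by
    rw [← sub_eq_zero, ← map_sub]
    exact hk _ (by rw [map_sub, h, sub_self])
  choose σ hσ using hs
  let D : B →ₗ[ℂ] B :=
    { toFun := fun b => δ (σ b)
      map_add' := fun b c => by
        rw [← map_add]
        exact hw _ _ (by rw [map_add, hσ, hσ, hσ])
      map_smul' := fun c b => by
        rw [RingHom.id_apply, ← map_smul]
        exact hw _ _ (by rw [map_smul, hσ, hσ]) }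
  refine ⟨D.mkContinuous (‖δ‖ * C) fun b => ?_, fun y => hw _ _ (hσ _)⟩
  obtain ⟨y, hy, hy'⟩ := hC' b
  have : D b = δ y := hw _ _ (by rw [hσ, hy])
  rw [this, mul_assoc]
  exact (δ.le_opNorm y).trans (by gcongr)

theorem exists_jordanDer (φ δ : A →L[ℂ] B) (hs : Function.Surjective φ) (h1 : φ 1 = 1)
    (hδ1 : δ 1 = 0)
    (hz : ∀ y u v, IsSelfAdjoint (φ y) → u * φ y = 0 → φ y * v = 0 → u * δ y * v = 0) :
    ∃ D : B →L[ℂ] B, (∀ y, D (φ y) = δ y) ∧ D 1 = 0 ∧ IsJordanDer D := by
  obtain ⟨D, hD⟩ := exists_factor φ δ hs fun y hy => by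
    simpa using hz y 1 1 (by rw [hy]; exact IsSelfAdjoint.zero B) (by simp [hy]) (by simp [hy])
  have hD1 : D 1 = 0 := by rw [← h1, hD, hδ1]
  refine ⟨D, hD, hD1, isJordanDer_of_zero_product hD1 fun b u v hb hu hv => ?_⟩
  obtain ⟨y, rfl⟩ := hs b
  rw [hD]
  exact hz y u v hb hu hv

section Two

variable (φ : A →L[ℂ] B) (hs : Function.Surjective φ) (h1 : φ 1 = 1)
  (hu : ∀ a, IsUnit a → IsUnit (φ a))

include hs h1 hu

theorem left_zero_product (a y : A) (u v : B) (hy : IsSelfAdjoint (φ y)) (hu' : u * φ y = 0)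
    (hv' : φ y * v = 0) : u * (φ (a * y) - φ a * φ y) * v = 0 := by
  let _ : NormedAlgebra ℚ A := .restrictScalars ℚ ℂ A
  let e : ℂ → A := fun z => exp (z • a)
  have he : ∀ z, HasDerivAt e (e z * a) z := fun z => hasDerivAt_exp_smul_const a z
  have hed : Differentiable ℂ e := fun z => (he z).differentiableAt
  have he0 : e 0 = 1 := by simp [e]
  have heu : ∀ z, IsUnit (e z) := fun z => isUnit_exp _
  have hinv : ∀ z, e z * e (-z) = 1 := fun z => by
    rw [← exp_add_of_commute (((Commute.refl a).smul_left _).smul_right _), ← add_smul]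
    simp
  let Ψ : ℂ → A →ₗ[ℂ] B := fun z =>
    { toFun := fun y => Ring.inverse (φ (e z)) * φ (e z * y)
      map_add' := fun y y' => by rw [mul_add, map_add, mul_add]
      map_smul' := fun c y => by rw [mul_smul_comm, map_smul, mul_smul_comm, RingHom.id_apply] }
  have hΨ : ∀ z y, Ψ z y = Ring.inverse (φ (e z)) * φ (e z * y) := fun _ _ => rfl
  obtain ⟨C, hC, hC'⟩ := φ.exists_preimage_norm_le hs
  obtain ⟨G, hG⟩ := (isCompact_closedBall (0 : ℂ) 1).exists_bound_of_continuousOn
    hed.continuous.continuousOn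
  have hG' : ∀ z : ℂ, ‖z‖ ≤ 1 → ‖e z‖ ≤ |G| := fun z hz =>
    (hG z (by simpa using hz)).trans (le_abs_self _)
  refine zero_product (φ := (φ : A →ₗ[ℂ] B)) (Ψ := Ψ) (δ := fun y => φ (a * y) - φ a * φ y)
    (K := ‖φ‖ * (|G| * (C * (‖φ‖ * |G|))) + 1) ?_ ?_ ?_ ?_ (by positivity) ?_ hy hu' hv'
  · intro y
    rw [hΨ, he0, h1]; simp
  · intro y
    exact ((φ.differentiable.comp hed).inverse fun z => hu _ (heu z)).mul
      (φ.differentiable.comp (hed.mul_const y))
  · intro y
    have d1 : HasDerivAt (fun z => φ (e z)) (φ a) 0 := by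
      have := φ.hasFDerivAt.comp_hasDerivAt (0 : ℂ) (he 0)
      rwa [he0, one_mul] at this
    have d2 : HasDerivAt (fun z => Ring.inverse (φ (e z))) (-φ a) 0 := by
      have h0 : ((1 : Bˣ) : B) = φ (e 0) := by rw [he0, h1]; rfl
      have h2 := (h0 ▸ hasFDerivAt_ringInverse (𝕜 := ℂ) (1 : Bˣ)).comp_hasDerivAt (0 : ℂ) d1
      simpa [he0, h1] using! h2
    have d3 : HasDerivAt (fun z => φ (e z * y)) (φ (a * y)) 0 := by
      have := φ.hasFDerivAt.comp_hasDerivAt (0 : ℂ) ((he 0).mul_const y)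
      rwa [he0, one_mul] at this
    have := d2.mul d3
    simp only [he0, h1, one_mul, Ring.inverse_one, neg_mul] at this
    rw [neg_add_eq_sub] at this
    exact this
  · intro z
    refine spectrum_subset (Ψ z) ?_ fun y hy => ?_
    · rw [hΨ, mul_one, Ring.inverse_mul_cancel _ (hu _ (heu z))]
    · exact (hu _ (heu z)).ringInverse.mul (hu _ ((heu z).mul hy))
  · intro z hz c
    obtain ⟨y', h2, h3⟩ := hC' (φ (e z) * c)
    refine ⟨e (-z) * y', ?_, ?_⟩
    · rw [hΨ, ← mul_assoc, hinv, one_mul, h2, Ring.inverse_mul_cancel_left _ _ (hu _ (heu z))]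
    · have g1 := hG' z hz
      have g2 := hG' (-z) (by simpa using hz)
      calc ‖φ (e (-z) * y')‖ ≤ ‖φ‖ * (‖e (-z)‖ * ‖y'‖) :=
            (φ.le_opNorm _).trans (by gcongr; exact norm_mul_le _ _)
        _ ≤ ‖φ‖ * (|G| * (C * (‖φ‖ * |G| * ‖c‖))) := by
            gcongr
            refine h3.trans ?_
            gcongr
            refine (norm_mul_le _ _).trans ?_
            gcongr
            exact (φ.le_opNorm _).trans (by gcongr)
        _ ≤ _ := by nlinarith [norm_nonneg c]

theorem right_zero_product (a y : A) (u v : B) (hy : IsSelfAdjoint (φ y)) (hu' : u * φ y = 0)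
    (hv' : φ y * v = 0) : u * (φ (y * a) - φ y * φ a) * v = 0 := by
  let _ : NormedAlgebra ℚ A := .restrictScalars ℚ ℂ A
  let e : ℂ → A := fun z => exp (z • a)
  have he : ∀ z, HasDerivAt e (e z * a) z := fun z => hasDerivAt_exp_smul_const a z
  have hed : Differentiable ℂ e := fun z => (he z).differentiableAt
  have he0 : e 0 = 1 := by simp [e]
  have heu : ∀ z, IsUnit (e z) := fun z => isUnit_exp _
  have hinv : ∀ z, e (-z) * e z = 1 := fun z => by
    rw [← exp_add_of_commute (((Commute.refl a).smul_left _).smul_right _), ← add_smul]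
    simp
  let Ψ : ℂ → A →ₗ[ℂ] B := fun z =>
    { toFun := fun y => φ (y * e z) * Ring.inverse (φ (e z))
      map_add' := fun y y' => by rw [add_mul, map_add, add_mul]
      map_smul' := fun c y => by rw [smul_mul_assoc, map_smul, smul_mul_assoc, RingHom.id_apply] }
  have hΨ : ∀ z y, Ψ z y = φ (y * e z) * Ring.inverse (φ (e z)) := fun _ _ => rfl
  obtain ⟨C, hC, hC'⟩ := φ.exists_preimage_norm_le hs
  obtain ⟨G, hG⟩ := (isCompact_closedBall (0 : ℂ) 1).exists_bound_of_continuousOn
    hed.continuous.continuousOn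
  have hG' : ∀ z : ℂ, ‖z‖ ≤ 1 → ‖e z‖ ≤ |G| := fun z hz =>
    (hG z (by simpa using hz)).trans (le_abs_self _)
  refine zero_product (φ := (φ : A →ₗ[ℂ] B)) (Ψ := Ψ) (δ := fun y => φ (y * a) - φ y * φ a)
    (K := ‖φ‖ * ((C * (‖φ‖ * |G|)) * |G|) + 1) ?_ ?_ ?_ ?_ (by positivity) ?_ hy hu' hv'
  · intro y
    rw [hΨ, he0, h1]; simp
  · intro y
    exact (φ.differentiable.comp (hed.const_mul y)).mul
      ((φ.differentiable.comp hed).inverse fun z => hu _ (heu z))
  · intro y
    have d1 : HasDerivAt (fun z => φ (e z)) (φ a) 0 := by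
      have := φ.hasFDerivAt.comp_hasDerivAt (0 : ℂ) (he 0)
      rwa [he0, one_mul] at this
    have d2 : HasDerivAt (fun z => Ring.inverse (φ (e z))) (-φ a) 0 := by
      have h0 : ((1 : Bˣ) : B) = φ (e 0) := by rw [he0, h1]; rfl
      have h2 := (h0 ▸ hasFDerivAt_ringInverse (𝕜 := ℂ) (1 : Bˣ)).comp_hasDerivAt (0 : ℂ) d1
      simpa [he0, h1] using! h2
    have d3 : HasDerivAt (fun z => φ (y * e z)) (φ (y * a)) 0 := by
      have := φ.hasFDerivAt.comp_hasDerivAt (0 : ℂ) ((he 0).const_mul y)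
      rwa [he0, one_mul] at this
    have := d3.mul d2
    simp only [he0, h1, mul_one, Ring.inverse_one, mul_neg] at this
    rw [← sub_eq_add_neg] at this
    exact this
  · intro z
    refine spectrum_subset (Ψ z) ?_ fun y hy => ?_
    · rw [hΨ, one_mul, Ring.mul_inverse_cancel _ (hu _ (heu z))]
    · exact (hu _ (hy.mul (heu z))).mul (hu _ (heu z)).ringInverse
  · intro z hz c
    obtain ⟨y', h2, h3⟩ := hC' (c * φ (e z))
    refine ⟨y' * e (-z), ?_, ?_⟩
    · rw [hΨ, mul_assoc, hinv, mul_one, h2, Ring.mul_inverse_cancel_right _ _ (hu _ (heu z))]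
    · have g1 := hG' z hz
      have g2 := hG' (-z) (by simpa using hz)
      calc ‖φ (y' * e (-z))‖ ≤ ‖φ‖ * (‖y'‖ * ‖e (-z)‖) :=
            (φ.le_opNorm _).trans (by gcongr; exact norm_mul_le _ _)
        _ ≤ ‖φ‖ * ((C * (‖c‖ * (‖φ‖ * |G|))) * |G|) := by
            gcongr
            refine h3.trans ?_
            gcongr
            refine (norm_mul_le _ _).trans ?_
            gcongr
            exact (φ.le_opNorm _).trans (by gcongr)
        _ ≤ _ := by nlinarith [norm_nonneg c]

theorem exists_left (a : A) : ∃ D : B →L[ℂ] B, (∀ y, D (φ y) = φ (a * y) - φ a * φ y) ∧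
    D 1 = 0 ∧ IsJordanDer D :=
  exists_jordanDer φ (φ.comp (ContinuousLinearMap.mul ℂ A a)
    - (ContinuousLinearMap.mul ℂ B (φ a)).comp φ) hs h1 (by simp [h1])
    fun y u v hy hu' hv' => left_zero_product φ hs h1 hu a y u v hy hu' hv'

theorem exists_right (a : A) : ∃ D : B →L[ℂ] B, (∀ y, D (φ y) = φ (y * a) - φ y * φ a) ∧
    D 1 = 0 ∧ IsJordanDer D :=
  exists_jordanDer φ (φ.comp ((ContinuousLinearMap.mul ℂ A).flip a)
    - ((ContinuousLinearMap.mul ℂ B).flip (φ a)).comp φ) hs h1 (by simp [h1])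
    fun y u v hy hu' hv' => right_zero_product φ hs h1 hu a y u v hy hu' hv'

theorem sq_of_selfAdjoint (a : A) (hb : IsSelfAdjoint (φ a)) : φ (a * a) = φ a * φ a := by
  obtain ⟨D, hD, hD1, hDJ⟩ := exists_left φ hs h1 hu a
  set b := φ a with hbdef
  set q := D b with hq
  obtain ⟨a2, ha2⟩ := hs (b * b)
  obtain ⟨D2, hD2, -, hD2J⟩ := exists_left φ hs h1 hu a2
  have hright : ∀ x : B, D2 x = D x * b + b * D x := by
    intro x
    obtain ⟨y, rfl⟩ := hs x
    obtain ⟨R, hR, -, hRJ⟩ := exists_right φ hs h1 hu y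
    have e1 := hRJ b b
    rw [hD2, ← hR, ha2, hD, ← hR, ← hbdef]
    rw [map_add] at e1
    have : (2 : ℂ) • R (b * b) = (2 : ℂ) • (R b * b + b * R b) := by
      linear_combination (norm := module) e1
    exact smul_right_injective _ two_ne_zero this
  have hcomm : ∀ v : B, q * (v * b - b * v) = (v * b - b * v) * q := by
    intro v
    have e1 := hD2J b v
    rw [hright, hright, hright, hDJ b v, ← hq] at e1
    linear_combination (norm := noncomm_ring) e1
  have h2 : star (q * b - b * q) * (q * b - b * q) = 0 := by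
    have e1 := hcomm (star q)
    have e2 := hcomm (star q * b)
    rw [star_sub, star_mul, star_mul, hb.star_eq]
    have e3 : (b * star q - star q * b) * (q * b - b * q)
        = (q * (star q * b - b * star q) - (star q * b - b * star q) * q) * b
          - (q * (star q * b * b - b * (star q * b))
            - (star q * b * b - b * (star q * b)) * q) := by noncomm_ring
    rw [e3, e1, e2]
    simp
  have h3 : Commute b q := by
    have := (CStarRing.star_mul_self_eq_zero_iff _).1 h2
    exact (sub_eq_zero.1 this).symm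
  have h4 := hDJ.eq_zero_of_commute hD1 hb h3
  rw [hbdef, hD] at h4
  exact sub_eq_zero.1 h4

theorem sq_general (a : A) : φ (a * a) = φ a * φ a := by
  obtain ⟨a1, ha1⟩ := hs (realPart (φ a) : selfAdjoint B).1
  let a2 : A := (-Complex.I) • (a - a1)
  have ha : a = a1 + Complex.I • a2 := by
    simp only [a2, smul_smul, mul_neg, Complex.I_mul_I, neg_neg, one_smul]
    abel
  have ha2 : φ a2 = (imaginaryPart (φ a) : selfAdjoint B).1 := by
    have h := realPart_add_I_smul_imaginaryPart (φ a)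
    simp only [a2, map_smul, map_sub, ha1]
    rw [← sub_eq_iff_eq_add'.2 h.symm |>.symm, smul_smul]
    simp
  have s1 : IsSelfAdjoint (φ a1) := ha1 ▸ (realPart (φ a)).2
  have s2 : IsSelfAdjoint (φ a2) := ha2 ▸ (imaginaryPart (φ a)).2
  have e1 := sq_of_selfAdjoint φ hs h1 hu a1 s1
  have e2 := sq_of_selfAdjoint φ hs h1 hu a2 s2
  have e3 := sq_of_selfAdjoint φ hs h1 hu (a1 + a2) (by rw [map_add]; exact s1.add s2)
  rw [ha]
  simp only [mul_add, add_mul, map_add, map_smul, smul_mul_assoc, mul_smul_comm] at e3 ⊢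
  linear_combination (norm := module) e1 + Complex.I • (e3 - e1 - e2)
    + (Complex.I * Complex.I) • e2

end Two

end Pool.Agent.Lib.MP_92e372_an
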