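import Mathlib

namespace Pool.Agent.Lib.MP_92e372_an

open Finset

/-- The deviation of the ramp from the identity on the unit interval. -/
noncomputable def kap (s : ℕ) (u : ℝ) : ℝ := max 0 (min 1 (27 * u - (3 * s + 1))) - u

/-- A bump equal to one on the ramp. -/
noncomputable def bum (s : ℕ) (u : ℝ) : ℝ :=
  max 0 (min 1 (min (27 * u - 3 * s) (3 * s + 3 - 27 * u)))

theorem continuous_kap {s : ℕ} (hs : s < 9) : Continuous fun t : ℝ => kap s (Int.fract t) := by
  have hs' : (s : ℝ) ≤ 8 := by exact_mod_cast Nat.lt_succ_iff.1 hs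
  have hs0 : (0 : ℝ) ≤ s := Nat.cast_nonneg s
  refine ContinuousOn.comp_fract'' (f := kap s) (Continuous.continuousOn (by unfold kap; fun_prop)) ?_
  unfold kap
  rw [min_eq_right (by linarith), max_eq_left (by linarith), min_eq_left (by linarith),
    max_eq_right (by linarith)]
  ring

theorem continuous_bum {s : ℕ} (hs : s < 9) : Continuous fun t : ℝ => bum s (Int.fract t) := by
  have hs' : (s : ℝ) ≤ 8 := by exact_mod_cast Nat.lt_succ_iff.1 hs
  have hs0 : (0 : ℝ) ≤ s := Nat.cast_nonneg s
  refine ContinuousOn.comp_fract'' (f := bum s) (Continuous.continuousOn (by unfold bum; fun_prop)) ?_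
  unfold bum
  rw [max_eq_left, max_eq_left]
  · exact (min_le_right _ _).trans ((min_le_right _ _).trans (by linarith))
  · exact (min_le_right _ _).trans ((min_le_left _ _).trans (by linarith))

theorem abs_kap_le (s : ℕ) (t : ℝ) : |kap s (Int.fract t)| ≤ 1 := by
  have h0 := Int.fract_nonneg t
  have h1 := Int.fract_lt_one t
  have h2 : 0 ≤ max 0 (min 1 (27 * Int.fract t - (3 * s + 1))) := le_max_left _ _
  have h3 : max 0 (min 1 (27 * Int.fract t - (3 * s + 1))) ≤ 1 :=
    max_le zero_le_one (min_le_left _ _)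
  unfold kap
  rw [abs_le]
  constructor <;> linarith

theorem bum_nonneg (s : ℕ) (u : ℝ) : 0 ≤ bum s u := le_max_left _ _

theorem bum_le_one (s : ℕ) (u : ℝ) : bum s u ≤ 1 := max_le zero_le_one (min_le_left _ _)

theorem bum_support {s : ℕ} {u : ℝ} (h : bum s u ≠ 0) : 3 * s < 27 * u ∧ 27 * u < 3 * s + 3 := by
  by_contra hc
  apply h
  unfold bum
  apply max_eq_left
  rw [not_and_or, not_lt, not_lt] at hc
  rcases hc with hc | hc
  · exact (min_le_right _ _).trans ((min_le_left _ _).trans (by linarith))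
  · exact (min_le_right _ _).trans ((min_le_right _ _).trans (by linarith))

theorem bum_mul_bum {s s' : ℕ} (h : s ≠ s') (u : ℝ) : bum s u * bum s' u = 0 := by
  by_contra hc
  have h1 := bum_support (left_ne_zero_of_mul hc)
  have h2 := bum_support (right_ne_zero_of_mul hc)
  have h3 : (s : ℝ) < s' + 1 := by linarith [h1.1, h2.2]
  have h4 : (s' : ℝ) < s + 1 := by linarith [h1.2, h2.1]
  have h5 : s < s' + 1 := by exact_mod_cast h3
  have h6 : s' < s + 1 := by exact_mod_cast h4
  omega

theorem sum_bum_le (u : ℝ) : |∑ s ∈ range 9, bum s u| ≤ 1 := by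
  rw [abs_of_nonneg (sum_nonneg fun s _ => bum_nonneg s u)]
  by_cases h : ∃ s ∈ range 9, bum s u ≠ 0
  · obtain ⟨s, hs, h⟩ := h
    rw [sum_eq_single_of_mem s hs]
    · exact bum_le_one s u
    · intro s' _ hne
      exact (mul_eq_zero.1 (bum_mul_bum hne u)).resolve_right h
  · push Not at h
    rw [sum_eq_zero h]
    exact zero_le_one

theorem plateau_int {s : ℕ} {t : ℝ} (h : bum s (Int.fract t) ≠ 1) :
    ∃ j : ℤ, t + kap s (Int.fract t) = j := by
  have ht : t = ⌊t⌋ + Int.fract t := (Int.floor_add_fract t).symm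
  by_cases h1 : 27 * Int.fract t ≤ 3 * s + 1
  · refine ⟨⌊t⌋, ?_⟩
    unfold kap
    rw [max_eq_left ((min_le_right _ _).trans (by linarith))]
    linarith
  · by_cases h2 : 3 * s + 2 ≤ 27 * Int.fract t
    · refine ⟨⌊t⌋ + 1, ?_⟩
      unfold kap
      rw [min_eq_left (by linarith), max_eq_right zero_le_one]
      push_cast
      linarith
    · exfalso
      apply h
      unfold bum
      rw [min_eq_left (le_min (by linarith) (by linarith)), max_eq_right zero_le_one]

/-- The tent function. -/
noncomputable def tent (w : ℝ) : ℝ := max 0 (1 - |w|)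

theorem continuous_tent : Continuous tent := by unfold tent; fun_prop

theorem tent_int {i j : ℤ} (h : i ≠ j) : tent ((j : ℝ) - i) = 0 := by
  unfold tent
  apply max_eq_left
  have h1 : (1 : ℤ) ≤ |j - i| := Int.one_le_abs (sub_ne_zero.2 h.symm)
  have h2 : ((1 : ℤ) : ℝ) ≤ ((|j - i| : ℤ) : ℝ) := by exact_mod_cast h1
  push_cast at h2
  linarith

theorem piece_mul (s : ℕ) (t : ℝ) (i : ℤ) :
    (1 - bum s (Int.fract t)) * tent (t + kap s (Int.fract t) - i) * (t + kap s (Int.fract t))
      = i * ((1 - bum s (Int.fract t)) * tent (t + kap s (Int.fract t) - i)) := by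
  by_cases h : bum s (Int.fract t) = 1
  · rw [h]; simp
  · obtain ⟨j, hj⟩ := plateau_int h
    rw [hj]
    by_cases hij : i = j
    · rw [hij]; ring
    · rw [tent_int hij]; ring

theorem sum_piece (s : ℕ) (t : ℝ) (M : ℕ) (hM : |t| + 1 ≤ M) :
    ∑ i ∈ Icc (-(M : ℤ)) M, (1 - bum s (Int.fract t)) * tent (t + kap s (Int.fract t) - i)
      = 1 - bum s (Int.fract t) := by
  by_cases h : bum s (Int.fract t) = 1
  · rw [h]; simp
  · obtain ⟨j, hj⟩ := plateau_int h
    have h1 : |(j : ℝ)| ≤ M := by
      rw [← hj]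
      exact (abs_add_le _ _).trans (by linarith [abs_kap_le s t])
    have h2 : |j| ≤ (M : ℤ) := by exact_mod_cast h1
    rw [hj, sum_eq_single_of_mem j (mem_Icc.2 (abs_le.1 h2))]
    · simp [tent]
    · intro i _ hi
      rw [tent_int hi, mul_zero]

end Pool.Agent.Lib.MP_92e372_an
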